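import Pool.Agent.Lib.MP_182bbb_co.AR.Iface

/-!
# AVG: the hypergeometric average (module AVG of board `ar`)
-/

open Finset MP_182bbb_co.H5

namespace MP_182bbb_co.AR

universe u v

lemma avg_dc {V : Type*} [DecidableEq V] (A : Finset V) (m : ℕ) (g : Finset V → ℝ) :
    ((m : ℝ) + 1) * ∑ C ∈ A.powersetCard (m + 1), g C =
      ∑ C ∈ A.powersetCard m, ∑ v ∈ A \ C, g (insert v C) := by
  have h1 : ((m : ℝ) + 1) * ∑ C ∈ A.powersetCard (m + 1), g C =
      ∑ C ∈ A.powersetCard (m + 1), ∑ _v ∈ C, g C := by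
    rw [mul_sum]
    refine sum_congr rfl fun C hC => ?_
    rw [sum_const, (mem_powersetCard.1 hC).2, nsmul_eq_mul]
    push_cast
    ring
  rw [h1, sum_sigma', sum_sigma']
  refine sum_nbij' (fun x => ⟨x.1.erase x.2, x.2⟩) (fun x => ⟨insert x.2 x.1, x.2⟩) ?_ ?_ ?_ ?_ ?_
  · rintro ⟨C, v⟩ hx
    simp only [mem_sigma, mem_powersetCard] at hx ⊢
    obtain ⟨⟨h1, h2⟩, h3⟩ := hx
    refine ⟨⟨(erase_subset _ _).trans h1, ?_⟩, ?_⟩
    · rw [card_erase_of_mem h3, h2]
      rfl
    · rw [mem_sdiff]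
      exact ⟨h1 h3, notMem_erase _ _⟩
  · rintro ⟨C, v⟩ hx
    simp only [mem_sigma, mem_powersetCard, mem_sdiff] at hx ⊢
    obtain ⟨⟨h1, h2⟩, h3, h4⟩ := hx
    refine ⟨⟨insert_subset h3 h1, ?_⟩, mem_insert_self _ _⟩
    rw [card_insert_of_notMem h4, h2]
  · rintro ⟨C, v⟩ hx
    simp only [mem_sigma] at hx
    simp only [insert_erase hx.2]
  · rintro ⟨C, v⟩ hx
    simp only [mem_sigma, mem_sdiff] at hx
    simp only [erase_insert hx.2.2]
  · rintro ⟨C, v⟩ hx
    simp only [mem_sigma] at hx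
    simp only [insert_erase hx.2]

lemma avg_step {V : Type*} [DecidableEq V] (A P : Finset V) (a m : ℕ)
    (hP : (P ∩ A).card + 1 ≤ a) (C : Finset V) (hC : C ∈ A.powersetCard m) :
    ∑ v ∈ A \ C, (1 : ℝ) / ((a : ℝ) - (P ∩ insert v C).card) ≤
      ((A.card : ℝ) + 1 - m) * (1 / ((a : ℝ) - (P ∩ C).card)) := by
  obtain ⟨hCA, hCm⟩ := mem_powersetCard.1 hC
  set κ := (P ∩ C).card with hκ
  set B := A \ C with hB
  have hBc : B.card + m = A.card := by
    rw [hB, ← hCm]
    exact card_sdiff_add_card_eq_card hCA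
  set t := (B.filter (fun v => v ∈ P)).card with ht
  have hcount : κ + t ≤ (P ∩ A).card := by
    have h1 : κ + t = ((P ∩ C) ∪ B.filter (fun v => v ∈ P)).card := by
      rw [card_union_of_disjoint]
      rw [Finset.disjoint_left]
      intro x hx hx'
      rw [mem_filter, hB, mem_sdiff] at hx'
      exact hx'.1.2 (mem_inter.1 hx).2
    rw [h1]
    apply card_le_card
    intro x hx
    rw [mem_union] at hx
    rcases hx with hx | hx
    · rw [mem_inter] at hx ⊢
      exact ⟨hx.1, hCA hx.2⟩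
    · rw [mem_filter, hB, mem_sdiff] at hx
      exact mem_inter.2 ⟨hx.2, hx.1.1⟩
  have hval : ∀ v ∈ B, (1 : ℝ) / ((a : ℝ) - (P ∩ insert v C).card) =
      if v ∈ P then 1 / ((a : ℝ) - κ - 1) else 1 / ((a : ℝ) - κ) := by
    intro v hv
    rw [hB, mem_sdiff] at hv
    by_cases hvP : v ∈ P
    · rw [if_pos hvP, inter_insert_of_mem hvP, card_insert_of_notMem
        (fun h => hv.2 (mem_inter.1 h).2)]
      push_cast
      rw [← hκ]
      ring_nf
    · rw [if_neg hvP, inter_insert_of_notMem hvP]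
  rw [sum_congr rfl hval, sum_ite, sum_const, sum_const, nsmul_eq_mul, nsmul_eq_mul]
  have hneg : (B.filter (fun v => v ∉ P)).card + t = B.card := by
    rw [ht, add_comm]
    exact card_filter_add_card_filter_not (fun v => v ∈ P)
  have hx : (t : ℝ) + 1 ≤ (a : ℝ) - κ := by
    have : κ + t + 1 ≤ a := by omega
    have h2 : ((κ + t + 1 : ℕ) : ℝ) ≤ a := by exact_mod_cast this
    push_cast at h2
    linarith
  have ht0 : (0 : ℝ) ≤ t := Nat.cast_nonneg _
  have hxpos : (0 : ℝ) < (a : ℝ) - κ := by linarith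
  have hkey : (t : ℝ) * (1 / ((a : ℝ) - κ - 1)) ≤ ((t : ℝ) + 1) * (1 / ((a : ℝ) - κ)) := by
    rcases eq_or_lt_of_le ht0 with h0 | h0
    · rw [← h0]
      simp only [zero_mul, zero_add, one_mul]
      positivity
    · have h1 : (0 : ℝ) < (a : ℝ) - κ - 1 := by linarith
      rw [mul_one_div, mul_one_div, div_le_div_iff₀ h1 hxpos]
      nlinarith
  have hn : ((B.filter (fun v => v ∉ P)).card : ℝ) = (A.card : ℝ) - m - t := by
    have h1 : ((B.filter (fun v => v ∉ P)).card : ℝ) + t = B.card := by exact_mod_cast hneg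
    have h2 : (B.card : ℝ) + m = A.card := by exact_mod_cast hBc
    linarith
  rw [hn, ← ht]
  have h3 : ((A.card : ℝ) + 1 - m) * (1 / ((a : ℝ) - κ)) =
      ((t : ℝ) + 1) * (1 / ((a : ℝ) - κ)) + ((A.card : ℝ) - m - t) * (1 / ((a : ℝ) - κ)) := by
    ring
  rw [h3]
  exact add_le_add hkey le_rfl

theorem avg : AVG_S.{v} := by
  intro V _ A P a m hP
  have ha : (1 : ℝ) ≤ a := by
    have : 1 ≤ a := by omega
    exact_mod_cast this
  have ha0 : (0 : ℝ) < a := by linarith
  induction m with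
  | zero => simp
  | succ m ih =>
    by_cases hm : m + 1 ≤ A.card
    · have h1 := avg_dc A m (fun C => (1 : ℝ) / ((a : ℝ) - (P ∩ C).card))
      have h2 : ∑ C ∈ A.powersetCard m, ∑ v ∈ A \ C,
          (1 : ℝ) / ((a : ℝ) - (P ∩ insert v C).card) ≤
          ((A.card : ℝ) + 1 - m) * ∑ C ∈ A.powersetCard m,
            (1 : ℝ) / ((a : ℝ) - (P ∩ C).card) := by
        rw [mul_sum]
        exact sum_le_sum fun C hC => avg_step A P a m hP C hC
      have hm' : ((m : ℝ) + 1) ≤ A.card := by exact_mod_cast hm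
      have h3 : ((m : ℝ) + 1) * ∑ C ∈ A.powersetCard (m + 1),
          (1 : ℝ) / ((a : ℝ) - (P ∩ C).card) ≤
          ((A.card : ℝ) + 1 - m) * (((A.card + 1).choose m : ℝ) / a) := by
        rw [h1]
        refine h2.trans ?_
        exact mul_le_mul_of_nonneg_left ih (by linarith)
      have h4 : ((A.card : ℝ) + 1 - m) * (((A.card + 1).choose m : ℝ) / a) =
          ((m : ℝ) + 1) * (((A.card + 1).choose (m + 1) : ℝ) / a) := by
        have h5 := Nat.choose_succ_right_eq (A.card + 1) m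
        have h6 : (((A.card + 1).choose (m + 1) : ℝ)) * ((m : ℝ) + 1) =
            ((A.card + 1).choose m : ℝ) * ((A.card : ℝ) + 1 - m) := by
          have h7 : (((A.card + 1 - m : ℕ)) : ℝ) = (A.card : ℝ) + 1 - m := by
            rw [Nat.cast_sub (by omega)]
            push_cast
            ring
          rw [← h7]
          exact_mod_cast h5
        rw [← mul_div_assoc, ← mul_div_assoc, mul_comm _ ((A.card + 1).choose m : ℝ), ← h6]
        ring
      rw [h4] at h3
      exact le_of_mul_le_mul_left h3 (by positivity)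
    · have h0 : A.powersetCard (m + 1) = ∅ := by
        rw [powersetCard_eq_empty]
        omega
      rw [h0, sum_empty]
      positivity

end MP_182bbb_co.AR
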