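import Pool.Agent.Lib.MP_182bbb_co.AR.Iface

/-!
# EMBED: greedy embedding of a strict tree (module EMBED of board `ar`)
-/

open Finset MP_182bbb_co.H5

namespace MP_182bbb_co.AR

universe u v

lemma embed_mem_shadow {V : Type*} [DecidableEq V] {K : Finset (Finset V)} {f : Finset V} :
    f ∈ H5.shadow K ↔ ∃ e ∈ K, ∃ x ∈ e, e.erase x = f := by
  simp [H5.shadow]

/-- A placement of one edge onto another one. -/
lemma embed_base {α V : Type*} [DecidableEq α] [DecidableEq V] (e : Finset α) (f : Finset V)
    (h : e.card = f.card) (hne : f.Nonempty) :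
    ∃ g : α → V, Set.InjOn g (e : Set α) ∧ e.image g = f := by
  classical
  obtain ⟨y, _⟩ := hne
  set φ := Finset.equivOfCardEq h
  refine ⟨fun x => if hx : x ∈ e then (φ ⟨x, hx⟩ : V) else y, ?_, ?_⟩
  · intro x hx z hz hxz
    rw [mem_coe] at hx hz
    simp only [dif_pos hx, dif_pos hz] at hxz
    have h1 := φ.injective (Subtype.ext hxz)
    exact congrArg Subtype.val h1
  · apply Subset.antisymm
    · intro z hz
      obtain ⟨x, hx, rfl⟩ := mem_image.1 hz
      simp only [dif_pos hx]
      exact (φ ⟨x, hx⟩).2
    · intro z hz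
      refine mem_image.2 ⟨(φ.symm ⟨z, hz⟩ : e), (φ.symm ⟨z, hz⟩).2, ?_⟩
      simp

theorem embed_aux {α : Type u} {V : Type v} [DecidableEq α] [Fintype V] [DecidableEq V]
    (r k : ℕ) (K : Finset (Finset V)) (hr : 1 ≤ r) (e : Fin (k + 1) → Finset α)
    (hcard : ∀ i, (e i).card = r)
    (htree : ∀ i : Fin (k + 1), 0 < (i : ℕ) → (e i ∩ (Finset.Iio i).biUnion e).card + 1 = r ∧
      ∃ j < i, e i ∩ (Finset.Iio i).biUnion e ⊆ e j)
    (hK : IsUniform r K) (hne : K.Nonempty) (hdeg : ∀ f ∈ H5.shadow K, k + 1 ≤ dg K f)
    (n : ℕ) (hn : n ≤ k) :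
    ((univ.filter (fun j : Fin (k + 1) => (j : ℕ) ≤ n)).biUnion e).card = r + n ∧
    ∃ g : α → V, Set.InjOn g
        (((univ.filter (fun j : Fin (k + 1) => (j : ℕ) ≤ n)).biUnion e : Finset α) : Set α) ∧
      ∀ j : Fin (k + 1), (j : ℕ) ≤ n → (e j).image g ∈ K := by
  induction n with
  | zero =>
    have hU : (univ.filter (fun j : Fin (k + 1) => (j : ℕ) ≤ 0)).biUnion e = e 0 := by
      have h1 : univ.filter (fun j : Fin (k + 1) => (j : ℕ) ≤ 0) = {0} := by
        ext j
        simp only [mem_filter, mem_univ, true_and, mem_singleton, Nat.le_zero]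
        constructor
        · intro h
          exact Fin.ext h
        · rintro rfl
          rfl
      rw [h1, singleton_biUnion]
    rw [hU]
    refine ⟨by rw [hcard]; rfl, ?_⟩
    obtain ⟨f, hf⟩ := hne
    obtain ⟨g, hg1, hg2⟩ := embed_base (e 0) f (by rw [hcard, hK f hf])
      (by rw [← card_pos, hK f hf]; omega)
    refine ⟨g, hg1, fun j hj => ?_⟩
    have : j = 0 := Fin.ext (by simpa using hj)
    rw [this, hg2]
    exact hf
  | succ n ih =>
    obtain ⟨ihc, g, hg, hgK⟩ := ih (by omega)
    set U := (univ.filter (fun j : Fin (k + 1) => (j : ℕ) ≤ n)).biUnion e with hU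
    set i : Fin (k + 1) := ⟨n + 1, by omega⟩ with hi
    have hIio : (Finset.Iio i).biUnion e = U := by
      rw [hU]
      congr 1
      ext j
      simp only [mem_Iio, mem_filter, mem_univ, true_and, Fin.lt_def, hi]
      omega
    obtain ⟨hq1, j, hji, hqj⟩ := htree i (by simp [hi])
    rw [hIio] at hq1 hqj
    set q := e i ∩ U with hq
    have hjn : (j : ℕ) ≤ n := by
      have h0 : (j : ℕ) < n + 1 := Fin.lt_def.1 hji
      omega
    -- the new vertex
    have hsd : (e i \ U).card = 1 := by
      have h1 := card_sdiff_add_card_inter (e i) U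
      rw [hcard i, ← hq] at h1
      omega
    obtain ⟨v, hv⟩ := card_eq_one.1 hsd
    have hvm : v ∈ e i \ U := by
      rw [hv]
      exact mem_singleton_self _
    rw [mem_sdiff] at hvm
    have hei : e i = insert v q := by
      ext x
      rw [mem_insert, hq, mem_inter]
      constructor
      · intro hx
        by_cases hxU : x ∈ U
        · exact Or.inr ⟨hx, hxU⟩
        · left
          have : x ∈ e i \ U := mem_sdiff.2 ⟨hx, hxU⟩
          rw [hv, mem_singleton] at this
          exact this
      · rintro (rfl | hx)
        · exact hvm.1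
        · exact hx.1
    have hUn : (univ.filter (fun j : Fin (k + 1) => (j : ℕ) ≤ n + 1)).biUnion e =
        insert v U := by
      have h1 : univ.filter (fun j : Fin (k + 1) => (j : ℕ) ≤ n + 1) =
          insert i (univ.filter (fun j : Fin (k + 1) => (j : ℕ) ≤ n)) := by
        ext j
        simp only [mem_filter, mem_univ, true_and, mem_insert]
        constructor
        · intro h
          rcases Nat.lt_or_ge n j with h2 | h2
          · left
            exact Fin.ext (by simp only [hi]; omega)
          · right
            exact h2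
        · rintro (rfl | h)
          · simp [hi]
          · omega
      rw [h1, biUnion_insert, ← hU, hei, insert_union]
      congr 1
      exact union_eq_right.2 inter_subset_right
    rw [hUn]
    refine ⟨by rw [card_insert_of_notMem hvm.2, ihc]; rfl, ?_⟩
    have hqU : q ⊆ U := inter_subset_right
    have hejU : e j ⊆ U := by
      rw [hU]
      exact subset_biUnion_of_mem e (mem_filter.2 ⟨mem_univ _, hjn⟩)
    -- the facet in the shadow of `K`
    have hqs : q.image g ∈ H5.shadow K := by
      have h1 : (e j \ q).card = 1 := by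
        have h2 := card_sdiff_add_card_eq_card hqj
        rw [hcard j] at h2
        omega
      obtain ⟨x, hx⟩ := card_eq_one.1 h1
      have hxm : x ∈ e j \ q := by
        rw [hx]
        exact mem_singleton_self _
      rw [mem_sdiff] at hxm
      have hqe : (e j).erase x = q := by
        symm
        apply eq_of_subset_of_card_le
        · intro y hy
          rw [mem_erase]
          exact ⟨fun h => hxm.2 (h ▸ hy), hqj hy⟩
        · rw [card_erase_of_mem hxm.1, hcard j]
          omega
      refine embed_mem_shadow.2 ⟨(e j).image g, hgK j hjn, g x, mem_image_of_mem g hxm.1, ?_⟩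
      rw [← hqe]
      apply Subset.antisymm
      · intro y hy
        obtain ⟨hy1, hy2⟩ := mem_erase.1 hy
        obtain ⟨z, hz, rfl⟩ := mem_image.1 hy2
        exact mem_image_of_mem g (mem_erase.2 ⟨fun h => hy1 (by rw [h]), hz⟩)
      · intro y hy
        obtain ⟨z, hz, rfl⟩ := mem_image.1 hy
        obtain ⟨hz1, hz2⟩ := mem_erase.1 hz
        refine mem_erase.2 ⟨fun h => hz1 ?_, mem_image_of_mem g hz2⟩
        exact hg (mem_coe.2 (hejU hz2)) (mem_coe.2 (hejU hxm.1)) h
    have hd := hdeg _ hqs
    -- a free vertex in the list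
    obtain ⟨c, hc1, hc2⟩ : ∃ c ∈ lk K (q.image g), c ∉ U.image g := by
      by_contra hcon
      push Not at hcon
      have h1 : lk K (q.image g) ⊆ U.image g \ q.image g := by
        intro c hc
        refine mem_sdiff.2 ⟨hcon c hc, ?_⟩
        simp only [lk, mem_filter, mem_univ, true_and] at hc
        exact hc.1
      have h2 := card_le_card h1
      have h3 := card_sdiff_add_card_eq_card (image_subset_image (f := g) hqU)
      rw [card_image_of_injOn hg, card_image_of_injOn (hg.mono (coe_subset.2 hqU)), ihc] at h3
      unfold dg at hd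
      omega
    have hne' : ∀ x ∈ U, x ≠ v := fun x hx h => hvm.2 (h ▸ hx)
    have hup : ∀ x ∈ U, Function.update g v c x = g x := fun x hx =>
      Function.update_of_ne (hne' x hx) _ _
    have himg : ∀ s ⊆ U, s.image (Function.update g v c) = s.image g := fun s hs =>
      image_congr (fun x hx => hup x (hs hx))
    refine ⟨Function.update g v c, ?_, ?_⟩
    · intro x hx y hy hxy
      rw [mem_coe, mem_insert] at hx hy
      rcases hx with rfl | hx
      · rcases hy with rfl | hy
        · rfl
        · rw [Function.update_self, hup y hy] at hxy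
          exact absurd (mem_image.2 ⟨y, hy, hxy.symm⟩) hc2
      · rcases hy with rfl | hy
        · rw [Function.update_self, hup x hx] at hxy
          exact absurd (mem_image.2 ⟨x, hx, hxy⟩) hc2
        · rw [hup x hx, hup y hy] at hxy
          exact hg (mem_coe.2 hx) (mem_coe.2 hy) hxy
    · intro l hl
      rcases Nat.lt_or_ge n l with h2 | h2
      · have hli : l = i := Fin.ext (by simp only [hi]; omega)
        rw [hli, hei, image_insert, Function.update_self, himg q hqU]
        simp only [lk, mem_filter, mem_univ, true_and] at hc1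
        exact hc1.2
      · rw [himg (e l)]
        · exact hgK l h2
        · rw [hU]
          exact subset_biUnion_of_mem e (mem_filter.2 ⟨mem_univ _, h2⟩)

theorem embed : EMBED_S.{u, v} := by
  intro α V _ _ _ r H K hr hH hK hne hdeg
  obtain ⟨k, e, hinj, hHe, hcard, htree⟩ := hH
  have hHc : H.card = k + 1 := by
    rw [← hHe, card_image_of_injective _ hinj, card_univ, Fintype.card_fin]
  obtain ⟨_, g, hg, hgK⟩ := embed_aux r k K hr e hcard htree hK hne
    (fun f hf => hHc ▸ hdeg f hf) k le_rfl
  have hall : univ.filter (fun j : Fin (k + 1) => (j : ℕ) ≤ k) = univ := by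
    ext j
    simp only [mem_filter, mem_univ, true_and, iff_true]
    omega
  refine ⟨g, ?_, ?_⟩
  · rw [hall] at hg
    have hv : verts H = univ.biUnion e := by
      rw [← hHe, verts, image_biUnion]
      rfl
    rw [hv]
    exact hg
  · intro f hf
    rw [← hHe, mem_image] at hf
    obtain ⟨j, _, rfl⟩ := hf
    exact hgK j (by omega)

end MP_182bbb_co.AR
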