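import Pool.Agent.Lib.MP_182bbb_co.AR.Iface

/-!
# PEEL: the degeneracy bound (module PEEL of board `ar`)
-/

open Finset MP_182bbb_co.H5

namespace MP_182bbb_co.AR

universe u v

lemma peel_mem_shadow {V : Type*} [DecidableEq V] {K : Finset (Finset V)} {f : Finset V} :
    f ∈ H5.shadow K ↔ ∃ e ∈ K, ∃ x ∈ e, e.erase x = f := by
  simp [H5.shadow]

lemma peel_card_of_mem_shadow {V : Type*} [DecidableEq V] {K : Finset (Finset V)} {f : Finset V}
    {r : ℕ} (hK : IsUniform r K) (hf : f ∈ H5.shadow K) : f.card + 1 = r := by
  obtain ⟨e, he, x, hx, rfl⟩ := peel_mem_shadow.1 hf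
  rw [← hK e he]
  exact card_erase_add_one hx

/-- The edges containing a facet `f` correspond to the list of `f`. -/
lemma peel_card_filter {V : Type*} [Fintype V] [DecidableEq V] {K : Finset (Finset V)}
    {f : Finset V} {r : ℕ} (hK : IsUniform r K) (hf : f.card + 1 = r) :
    (K.filter (fun e => f ⊆ e)).card = dg K f := by
  unfold dg
  symm
  refine card_bij (fun c _ => insert c f) ?_ ?_ ?_
  · intro c hc
    simp only [lk, mem_filter, mem_univ, true_and] at hc
    rw [mem_filter]
    exact ⟨hc.2, subset_insert _ _⟩
  · intro c hc d hd h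
    simp only [lk, mem_filter, mem_univ, true_and] at hc hd
    have h1 : c ∈ insert d f := by
      rw [← h]
      exact mem_insert_self _ _
    rcases mem_insert.1 h1 with h2 | h2
    · exact h2
    · exact absurd h2 hc.1
  · intro e he
    rw [mem_filter] at he
    have hcard : (e \ f).card = 1 := by
      have h1 := card_sdiff_add_card_eq_card he.2
      rw [hK e he.1] at h1
      omega
    obtain ⟨c, hc⟩ := card_eq_one.1 hcard
    have hce : c ∈ e \ f := by
      rw [hc]
      exact mem_singleton_self _
    rw [mem_sdiff] at hce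
    have hins : insert c f = e := by
      apply eq_of_subset_of_card_le (insert_subset hce.1 he.2)
      rw [card_insert_of_notMem hce.2, hf, hK e he.1]
    refine ⟨c, ?_, hins⟩
    simp only [lk, mem_filter, mem_univ, true_and]
    exact ⟨hce.2, by rw [hins]; exact he.1⟩

lemma peel_dg_mono {V : Type*} [Fintype V] [DecidableEq V] {K L : Finset (Finset V)}
    (h : K ⊆ L) (f : Finset V) : dg K f ≤ dg L f := by
  apply card_le_card
  intro c hc
  simp only [lk, mem_filter, mem_univ, true_and] at hc ⊢
  exact ⟨hc.1, h hc.2⟩

theorem peel : PEEL_S.{v} := by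
  intro V _ _ r N K hK hr hN hdeg
  induction hn : K.card using Nat.strong_induction_on generalizing K with
  | _ n ih =>
    subst hn
    rcases K.eq_empty_or_nonempty with rfl | hne
    · simp
    · obtain ⟨f, hf, hfN⟩ := hdeg K Subset.rfl hne
      have hfc : f.card + 1 = r := peel_card_of_mem_shadow hK hf
      set K1 := K.filter (fun e => ¬ f ⊆ e) with hK1
      have hsub : K1 ⊆ K := filter_subset _ _
      have hcard : dg K f + K1.card = K.card := by
        rw [← peel_card_filter hK hfc]
        exact card_filter_add_card_filter_not (fun e => f ⊆ e)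
      have hpos : 0 < dg K f := by
        rw [← peel_card_filter hK hfc, card_pos]
        obtain ⟨e, he, x, hx, h⟩ := peel_mem_shadow.1 hf
        exact ⟨e, mem_filter.2 ⟨he, by rw [← h]; exact erase_subset _ _⟩⟩
      have h1 := ih K1.card (by omega) K1 (fun e he => hK e (hsub he))
        (fun K' hK' hne' => hdeg K' (hK'.trans hsub) hne') rfl
      have hshadow : H5.shadow K1 ⊆ (H5.shadow K).erase f := by
        intro g hg
        obtain ⟨e, he, x, hx, h⟩ := peel_mem_shadow.1 hg
        rw [mem_erase]
        refine ⟨?_, peel_mem_shadow.2 ⟨e, hsub he, x, hx, h⟩⟩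
        rintro rfl
        rw [hK1, mem_filter] at he
        exact he.2 (by rw [← h]; exact erase_subset _ _)
      calc K.card = dg K f + K1.card := hcard.symm
        _ ≤ min (N - 1) (dg K f) + ∑ f ∈ H5.shadow K1, min (N - 1) (dg K1 f) := by
            have : dg K f ≤ min (N - 1) (dg K f) := le_min (by omega) le_rfl
            exact add_le_add this h1
        _ ≤ min (N - 1) (dg K f) + ∑ f ∈ (H5.shadow K).erase f, min (N - 1) (dg K f) := by
            apply add_le_add le_rfl
            refine (sum_le_sum fun g _ => ?_).trans
              (sum_le_sum_of_subset (f := fun g => min (N - 1) (dg K g)) hshadow)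
            exact min_le_min le_rfl (peel_dg_mono hsub g)
        _ = ∑ f ∈ H5.shadow K, min (N - 1) (dg K f) :=
            add_sum_erase (H5.shadow K) (fun g => min (N - 1) (dg K g)) hf

end MP_182bbb_co.AR
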